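import Pool.Agent.Helper40.AC.Stmts

set_option autoImplicit false

open scoped ContDiff Topology

namespace Pool.Agent.Helper83.AC

open Pool.Agent.Helper40.AC

theorem two_pi_pos' : (0 : ℝ) < 2 * Real.pi := by positivity

theorem fn_update (f : BB) (x : Ang) (k : Fin 4) (t : ℝ) (n : ℤ)
    (ht : t = x k - n • (2 * Real.pi)) : f.fn (Function.update x k t) = f.fn x := by
  have hper : Function.Periodic (fun s : ℝ => f.fn (Function.update x k s)) (2 * Real.pi) := by
    intro s
    have h1 : Function.update x k (s + 2 * Real.pi) =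
        Function.update x k s + Pi.single k (2 * Real.pi) := by
      funext i
      by_cases hi : i = k
      · subst hi; simp
      · simp [hi]
    simp only
    rw [h1, f.periodic]
  have h2 : f.fn (Function.update x k (x k - n • (2 * Real.pi))) =
      f.fn (Function.update x k (x k)) := hper.sub_zsmul_eq (x := x k) n
  rw [ht, h2, Function.update_eq_self]

/-- reduce one coordinate -/
noncomputable def step (k : Fin 4) (x : Ang) : Ang :=
  Function.update x k (toIcoMod two_pi_pos' 0 (x k))

theorem fn_step (f : BB) (k : Fin 4) (x : Ang) : f.fn (step k x) = f.fn x :=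
  fn_update f x k _ (toIcoDiv two_pi_pos' 0 (x k)) rfl

theorem exists_cube (x : Ang) : ∃ y ∈ cube, ∀ f : BB, f.fn y = f.fn x := by
  refine ⟨step 3 (step 2 (step 1 (step 0 x))), ?_, fun f => by simp only [fn_step]⟩
  have hI : ∀ t : ℝ, toIcoMod two_pi_pos' 0 t ∈ Set.Icc 0 (2 * Real.pi) := by
    intro t
    have := toIcoMod_mem_Ico two_pi_pos' 0 t
    rw [zero_add] at this
    exact ⟨this.1, this.2.le⟩
  constructor
  · intro i
    fin_cases i
    · simpa [step] using (hI (x 0)).1
    · simpa [step] using (hI (x 1)).1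
    · simpa [step] using (hI (x 2)).1
    · simpa [step] using (hI (x 3)).1
  · intro i
    fin_cases i
    · simpa [step] using (hI (x 0)).2
    · simpa [step] using (hI (x 1)).2
    · simpa [step] using (hI (x 2)).2
    · simpa [step] using (hI (x 3)).2

/-- complex conjugation -/
noncomputable def cj (f : BB) : BB :=
  BB.mk (fun x => (starRingEnd ℂ) (f.fn x))
    (Complex.conjCLE.contDiff.comp f.smooth) (fun x k => by simp only [f.periodic])

theorem ideal_ok : S_IDEAL := by
  intro I hI
  choose F hFI hF using hI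
  have hcube : IsCompact cube := isCompact_Icc
  obtain ⟨t, _, ht⟩ := hcube.elim_nhds_subcover (fun x => {y | (F x).fn y ≠ 0}) (by
    intro x _
    have hopen : IsOpen {y | (F x).fn y ≠ 0} :=
      isOpen_ne_fun (F x).smooth.continuous continuous_const
    exact hopen.mem_nhds (hF x))
  let g : BB := ∑ x ∈ t, cj (F x) * F x
  have hgI : g ∈ I := I.sum_mem (fun x _ => I.mul_mem_left _ (hFI x))
  have hgfn : ∀ y, g.fn y = ((∑ x ∈ t, Complex.normSq ((F x).fn y) : ℝ) : ℂ) := by
    intro y
    have h1 : g.fn y = ∑ x ∈ t, evx y (cj (F x) * F x) := map_sum (evx y) _ _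
    rw [h1, Complex.ofReal_sum]
    apply Finset.sum_congr rfl
    intro x _
    rw [Complex.normSq_eq_conj_mul_self]
    rfl
  have hgne : ∀ y, g.fn y ≠ 0 := by
    intro y
    obtain ⟨z, hz, hfz⟩ := exists_cube y
    rw [← hfz g, hgfn z]
    obtain ⟨x, hx, hxz⟩ : ∃ x ∈ t, (F x).fn z ≠ 0 := by
      have := ht hz
      simp only [Set.mem_iUnion, Set.mem_ofPred_eq, exists_prop] at this
      exact this
    have hpos : 0 < ∑ x ∈ t, Complex.normSq ((F x).fn z) :=
      Finset.sum_pos' (fun _ _ => Complex.normSq_nonneg _) ⟨x, hx, Complex.normSq_pos.2 hxz⟩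
    exact_mod_cast hpos.ne'
  let ginv : BB := BB.mk (fun x => (g.fn x)⁻¹) (g.smooth.inv hgne)
    (fun x k => by simp only [g.periodic])
  rw [Ideal.eq_top_iff_one]
  have h1 : (1 : BB) = ginv * g := by
    apply BB.ext
    intro x
    show (1 : ℂ) = (g.fn x)⁻¹ * g.fn x
    rw [inv_mul_cancel₀ (hgne x)]
  rw [h1]
  exact I.mul_mem_left _ hgI

end Pool.Agent.Helper83.AC
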