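import Pool.Agent.Helper40.AC.Stmts

set_option autoImplicit false

open scoped ContDiff Topology Matrix

namespace Pool.Agent.Helper83.AC

open Pool.Agent.Helper40.AC

theorem Psi_lt (z : Idx → ℝ) (l : Fin 8) (h : l.1 < 4) :
    Psi z l = (cc z ⟨l.1, h⟩ : ℂ) + (ss z ⟨l.1, h⟩ : ℂ) * Complex.I := by
  rw [Psi, dif_pos h]

theorem Psi_ge (z : Idx → ℝ) (l : Fin 8) (h : ¬ l.1 < 4) :
    Psi z l = ((ww z ⟨l.1 - 4, by omega⟩ / (1 + ww z 4) : ℝ) : ℂ) := by
  rw [Psi, dif_neg h]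

theorem Psi_contDiffAt {z : Idx → ℝ} (hz : 1 + ww z 4 ≠ 0) : ContDiffAt ℝ ∞ Psi z := by
  rw [contDiffAt_pi]
  intro l
  by_cases h : l.1 < 4
  · have h1 : (fun z : Idx → ℝ => Psi z l) = fun z => ((z (Sum.inl ⟨l.1, h⟩) : ℝ) : ℂ) +
        ((z (Sum.inr (Sum.inl ⟨l.1, h⟩)) : ℝ) : ℂ) * Complex.I :=
      funext fun z => Psi_lt z l h
    rw [h1]
    apply ContDiff.contDiffAt
    apply ContDiff.add
    · exact Complex.ofRealCLM.contDiff.comp (contDiff_apply ℝ ℝ _)
    · exact (Complex.ofRealCLM.contDiff.comp (contDiff_apply ℝ ℝ _)).mul contDiff_const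
  · have h1 : (fun z : Idx → ℝ => Psi z l) = fun z =>
        ((z (Sum.inr (Sum.inr ⟨l.1 - 4, by omega⟩)) / (1 + z (Sum.inr (Sum.inr 4))) : ℝ) : ℂ) :=
      funext fun z => Psi_ge z l h
    rw [h1]
    apply Complex.ofRealCLM.contDiff.contDiffAt.comp z
    apply ContDiffAt.div
    · exact (contDiff_apply ℝ ℝ _).contDiffAt
    · exact (contDiff_const.add (contDiff_apply ℝ ℝ _)).contDiffAt
    · exact hz

/-- real coordinates of the derivative -/
noncomputable def Rl (z : Idx → ℝ) : (Idx → ℝ) →ₗ[ℝ] (Fin 8 → ℝ) where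
  toFun v l := if h : l.1 < 4 then cc z ⟨l.1, h⟩ * ss v ⟨l.1, h⟩ - ss z ⟨l.1, h⟩ * cc v ⟨l.1, h⟩
    else (ww v ⟨l.1 - 4, by omega⟩ * (1 + ww z 4) - ww z ⟨l.1 - 4, by omega⟩ * ww v 4) /
      (1 + ww z 4) ^ 2
  map_add' v w := by
    funext l
    simp only [Pi.add_apply]
    split_ifs with h
    · simp only [cc, ss, Pi.add_apply]; ring
    · simp only [ww, Pi.add_apply]; ring
  map_smul' t v := by
    funext l
    simp only [Pi.smul_apply, RingHom.id_apply, smul_eq_mul]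
    split_ifs with h
    · simp only [cc, ss, Pi.smul_apply, smul_eq_mul]; ring
    · simp only [ww, Pi.smul_apply, smul_eq_mul]; ring

/-- the diagonal matrix -/
noncomputable def Ud (z : Idx → ℝ) (l : Fin 8) : ℂ :=
  if h : l.1 < 4 then Complex.I * ((cc z ⟨l.1, h⟩ : ℂ) + (ss z ⟨l.1, h⟩ : ℂ) * Complex.I) else 1

theorem Ud_ne {z : Idx → ℝ} (hz : z ∈ VV) (l : Fin 8) : Ud z l ≠ 0 := by
  rw [Ud]
  split_ifs with h
  · apply mul_ne_zero Complex.I_ne_zero
    intro h0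
    have h1 := congrArg Complex.re h0
    have h2 := congrArg Complex.im h0
    simp at h1 h2
    have h3 := hz.1 ⟨l.1, h⟩
    rw [h1, h2] at h3
    norm_num at h3
  · exact one_ne_zero

theorem norC_dot (z v : Idx → ℝ) (j : Fin 4) : norC z j ⬝ᵥ v = cc z j * cc v j + ss z j * ss v j := by
  simp only [dotProduct, norC, Fintype.sum_sum_type, Sum.elim_inl, Sum.elim_inr, ite_mul, zero_mul,
    Finset.sum_ite_eq', Finset.mem_univ, if_true, Finset.sum_const_zero, add_zero]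
  rfl

theorem norS_dot (z v : Idx → ℝ) : norS z ⬝ᵥ v = ∑ k, ww z k * ww v k := by
  simp only [dotProduct, norS, Fintype.sum_sum_type, Sum.elim_inl, Sum.elim_inr, zero_mul,
    Finset.sum_const_zero, zero_add]
  rfl

theorem fderiv_Psi {z : Idx → ℝ} (hz : z ∈ VV) (h4 : 1 + ww z 4 ≠ 0) {v : Idx → ℝ}
    (hC : ∀ j, norC z j ⬝ᵥ v = 0) (l : Fin 8) :
    fderiv ℝ Psi z v l = Ud z l * (Rl z v l : ℂ) := by
  have hd : DifferentiableAt ℝ Psi z := (Psi_contDiffAt h4).differentiableAt (by simp)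
  have h1 : HasDerivAt (fun t : ℝ => Psi (z + t • v)) (fderiv ℝ Psi z v) 0 :=
    hd.hasFDerivAt.hasLineDerivAt v
  have h2 : HasDerivAt (fun t : ℝ => Psi (z + t • v) l) (fderiv ℝ Psi z v l) 0 :=
    (hasDerivAt_pi.1 h1) l
  by_cases h : l.1 < 4
  · have h3 : HasDerivAt (fun t : ℝ => Psi (z + t • v) l)
        ((cc v ⟨l.1, h⟩ : ℂ) + (ss v ⟨l.1, h⟩ : ℂ) * Complex.I) 0 := by
      have e : (fun t : ℝ => Psi (z + t • v) l) = fun t : ℝ =>
          ((cc z ⟨l.1, h⟩ + t * cc v ⟨l.1, h⟩ : ℝ) : ℂ) +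
            ((ss z ⟨l.1, h⟩ + t * ss v ⟨l.1, h⟩ : ℝ) : ℂ) * Complex.I := by
        funext t
        rw [Psi_lt _ l h]
        rfl
      rw [e]
      have a1 : HasDerivAt (fun t : ℝ => cc z ⟨l.1, h⟩ + t * cc v ⟨l.1, h⟩) (cc v ⟨l.1, h⟩) 0 := by
        simpa using ((hasDerivAt_id (0 : ℝ)).mul_const (cc v ⟨l.1, h⟩)).const_add (cc z ⟨l.1, h⟩)
      have a2 : HasDerivAt (fun t : ℝ => ss z ⟨l.1, h⟩ + t * ss v ⟨l.1, h⟩) (ss v ⟨l.1, h⟩) 0 := by
        simpa using ((hasDerivAt_id (0 : ℝ)).mul_const (ss v ⟨l.1, h⟩)).const_add (ss z ⟨l.1, h⟩)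
      exact a1.ofReal_comp.add (a2.ofReal_comp.mul_const _)
    rw [h2.unique h3]
    have hj := hC ⟨l.1, h⟩
    rw [norC_dot] at hj
    have hcs := hz.1 ⟨l.1, h⟩
    have hR : Rl z v l = cc z ⟨l.1, h⟩ * ss v ⟨l.1, h⟩ - ss z ⟨l.1, h⟩ * cc v ⟨l.1, h⟩ := by
      show (if h : l.1 < 4 then _ else _) = _
      rw [dif_pos h]
    rw [hR, Ud, dif_pos h]
    apply Complex.ext
    · simp
      linear_combination (-(cc v ⟨l.1, h⟩)) * hcs + cc z ⟨l.1, h⟩ * hj
    · simp
      linear_combination (-(ss v ⟨l.1, h⟩)) * hcs + ss z ⟨l.1, h⟩ * hj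
  · have h3 : HasDerivAt (fun t : ℝ => Psi (z + t • v) l)
        (((ww v ⟨l.1 - 4, by omega⟩ * (1 + ww z 4) - ww z ⟨l.1 - 4, by omega⟩ * ww v 4) /
      (1 + ww z 4) ^ 2 : ℝ) : ℂ) 0 := by
      have e : (fun t : ℝ => Psi (z + t • v) l) = fun t : ℝ =>
          (((ww z ⟨l.1 - 4, by omega⟩ + t * ww v ⟨l.1 - 4, by omega⟩) /
            (1 + (ww z 4 + t * ww v 4)) : ℝ) : ℂ) := by
        funext t
        rw [Psi_ge _ l h]
        rfl
      rw [e]
      have a1 : HasDerivAt (fun t : ℝ => ww z ⟨l.1 - 4, by omega⟩ + t * ww v ⟨l.1 - 4, by omega⟩)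
          (ww v ⟨l.1 - 4, by omega⟩) 0 := by
        simpa using ((hasDerivAt_id (0 : ℝ)).mul_const
          (ww v ⟨l.1 - 4, by omega⟩)).const_add (ww z ⟨l.1 - 4, by omega⟩)
      have a2 : HasDerivAt (fun t : ℝ => 1 + (ww z 4 + t * ww v 4)) (ww v 4) 0 := by
        simpa using (((hasDerivAt_id (0 : ℝ)).mul_const (ww v 4)).const_add (ww z 4)).const_add 1
      have a3 := a1.div a2 (by simpa using h4)
      have a4 := a3.ofReal_comp
      have a5 : (ww v ⟨l.1 - 4, by omega⟩ * (1 + ww z 4) - ww z ⟨l.1 - 4, by omega⟩ * ww v 4) /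
          (1 + ww z 4) ^ 2 = (ww v ⟨l.1 - 4, by omega⟩ * (1 + (ww z 4 + 0 * ww v 4)) -
            (ww z ⟨l.1 - 4, by omega⟩ + 0 * ww v ⟨l.1 - 4, by omega⟩) * ww v 4) /
              (1 + (ww z 4 + 0 * ww v 4)) ^ 2 := by
        rw [zero_mul, zero_mul, add_zero, add_zero]
      rw [a5]
      exact a4
    rw [h2.unique h3]
    have hR : Rl z v l = (ww v ⟨l.1 - 4, by omega⟩ * (1 + ww z 4) -
        ww z ⟨l.1 - 4, by omega⟩ * ww v 4) / (1 + ww z 4) ^ 2 := by
      show (if h : l.1 < 4 then _ else _) = _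
      rw [dif_neg h]
    rw [hR, Ud, dif_neg h, one_mul]

theorem Rl_ge (z v : Idx → ℝ) (l : Fin 8) (h : ¬ l.1 < 4) :
    Rl z v l = (ww v ⟨l.1 - 4, by omega⟩ * (1 + ww z 4) -
        ww z ⟨l.1 - 4, by omega⟩ * ww v 4) / (1 + ww z 4) ^ 2 := by
  show (if h : l.1 < 4 then _ else _) = _
  rw [dif_neg h]

theorem Rl_inj {z : Idx → ℝ} (hz : z ∈ VV) (h4 : 1 + ww z 4 ≠ 0) {v : Idx → ℝ}
    (hC : ∀ j, norC z j ⬝ᵥ v = 0) (hS : norS z ⬝ᵥ v = 0) (h0 : Rl z v = 0) : v = 0 := by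
  have e1 : ∀ j : Fin 4, cc z j * ss v j - ss z j * cc v j = 0 := by
    intro j
    have := congrFun h0 ⟨j.1, by omega⟩
    have hR : Rl z v ⟨j.1, by omega⟩ = cc z j * ss v j - ss z j * cc v j := by
      show (if h : j.1 < 4 then _ else _) = _
      rw [dif_pos j.2]
    rw [hR] at this
    exact this
  have e2 : ∀ k : Fin 4, ww v k.castSucc * (1 + ww z 4) = ww z k.castSucc * ww v 4 := by
    intro k
    have := congrFun h0 ⟨k.1 + 4, by omega⟩
    have hR : Rl z v ⟨k.1 + 4, by omega⟩ = (ww v k.castSucc * (1 + ww z 4) -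
        ww z k.castSucc * ww v 4) / (1 + ww z 4) ^ 2 := by
      have h' : ¬ (k.1 + 4 < 4) := by omega
      rw [Rl_ge z v ⟨k.1 + 4, by omega⟩ h']
      rfl
    rw [hR, Pi.zero_apply, div_eq_zero_iff] at this
    rcases this with h | h
    · linarith
    · exact absurd h (pow_ne_zero 2 h4)
  have hw := hz.2
  rw [norS_dot] at hS
  rw [Fin.sum_univ_castSucc] at hw hS
  have l4 : (Fin.last 4 : Fin 5) = 4 := rfl
  rw [l4] at hw hS
  have e3 : ww v 4 = 0 := by
    have h1 : (∑ k : Fin 4, ww z k.castSucc * ww v k.castSucc) * (1 + ww z 4) =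
        (∑ k : Fin 4, ww z k.castSucc ^ 2) * ww v 4 := by
      rw [Finset.sum_mul, Finset.sum_mul]
      apply Finset.sum_congr rfl
      intro k _
      linear_combination ww z k.castSucc * e2 k
    have h2 : (1 + ww z 4) * ww v 4 = 0 := by
      linear_combination (1 + ww z 4) * hS - h1 - ww v 4 * hw
    rcases mul_eq_zero.1 h2 with h | h
    · exact absurd h h4
    · exact h
  have e4 : ∀ k : Fin 5, ww v k = 0 := by
    intro k
    refine Fin.lastCases ?_ (fun k => ?_) k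
    · exact e3
    · have := e2 k
      rw [e3, mul_zero] at this
      rcases mul_eq_zero.1 this with h | h
      · exact h
      · exact absurd h h4
  have e5 : ∀ j : Fin 4, cc v j = 0 ∧ ss v j = 0 := by
    intro j
    have hj := hC j
    rw [norC_dot] at hj
    have hcs := hz.1 j
    have h1 := e1 j
    constructor
    · linear_combination (-(cc v j)) * hcs + cc z j * hj - ss z j * h1
    · linear_combination (-(ss v j)) * hcs + ss z j * hj + cc z j * h1
  funext i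
  rcases i with j | j | k
  · exact (e5 j).1
  · exact (e5 j).2
  · exact e4 k

theorem tot_ok : S_TOT := by
  intro z hz h4
  refine ⟨Psi_contDiffAt h4, ?_⟩
  intro m v hC hS hlin
  rw [Fintype.linearIndependent_iff] at hlin ⊢
  intro a ha
  have h1 : ∀ l, ∑ k, a k * (Rl z (v k) l : ℂ) = 0 := by
    intro l
    have h2 := congrFun ha l
    rw [Finset.sum_apply] at h2
    simp only [Pi.smul_apply, smul_eq_mul, Pi.zero_apply] at h2
    have h3 : ∀ k, a k * fderiv ℝ Psi z (v k) l = Ud z l * (a k * (Rl z (v k) l : ℂ)) := by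
      intro k
      rw [fderiv_Psi hz h4 (hC k) l]
      ring
    simp only [h3] at h2
    rw [← Finset.mul_sum] at h2
    rcases mul_eq_zero.1 h2 with h | h
    · exact absurd h (Ud_ne hz l)
    · exact h
  have key : ∀ b : Fin m → ℝ, (∀ l, ∑ k, b k * Rl z (v k) l = 0) → ∀ k, b k = 0 := by
    intro b hb
    apply hlin
    apply Rl_inj hz h4
    · intro j
      rw [dotProduct_sum]
      apply Finset.sum_eq_zero
      intro k _
      rw [dotProduct_smul, hC, smul_zero]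
    · rw [dotProduct_sum]
      apply Finset.sum_eq_zero
      intro k _
      rw [dotProduct_smul, hS, smul_zero]
    · rw [map_sum]
      funext l
      rw [Finset.sum_apply]
      simp only [map_smul, Pi.smul_apply, smul_eq_mul]
      exact hb l
  have hre : ∀ k, (a k).re = 0 := by
    apply key
    intro l
    have := congrArg Complex.re (h1 l)
    simpa using this
  have him : ∀ k, (a k).im = 0 := by
    apply key
    intro l
    have := congrArg Complex.im (h1 l)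
    simpa using this
  intro k
  exact Complex.ext (hre k) (him k)

end Pool.Agent.Helper83.AC
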